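import Pool.Agent.Helper81.LT.Final
import Pool.Agent.Helper81.LT.Tsp
import Pool.Agent.Helper77.LT.NECK
import Pool.Agent.Helper27.LT.STEP
import Pool.Agent.Helper14.LT.Good
import Pool.Agent.Helper13.LT.IND
import Pool.Agent.Helper5.LT.Int
import Pool.Agent.Helper6.LT.Count
import Pool.Agent.Helper70.LT.Thmr
import Pool.Agent.Helper96.LT.THMS
import Pool.Agent.Helper73.LT.Conv
import Pool.Agent.Helper89.LT.NATPA
import Pool.Agent.Helper5.LT.Btu
import Pool.Agent.Helper85.LT.BETA
import Pool.Agent.Helper31.LT.OVER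
import Pool.Agent.Helper33.LT.TSPA
import Pool.Agent.Helper96.LT.TSPB
import Pool.Agent.Helper81.LT.Tspc
import Pool.Agent.Helper67.LT.STEP2
import Pool.Agent.Helper6.LT.CNT
import Pool.Agent.Helper27.LT.SEQ
import Pool.Agent.Helper7.LT.TVT
import Pool.Agent.Helper70.LT.Choi
import Pool.Agent.Helper48.LT.ESB
import Pool.Agent.Helper1.LT.KCL
import Pool.Agent.Helper48.LT.GENU
import Pool.Agent.Helper14.LT.RS
import Pool.Agent.Helper48.LT.ORDK
import Pool.Agent.Helper62.LT.SURK
import Pool.Agent.Helper32.LT.LATT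
import Pool.Agent.Helper85.LT.SGCL
import Pool.Agent.Helper65.LT.PRG
import Pool.Agent.Helper96.LT.PRR
import Pool.Agent.Helper27.LT.QPR
import Pool.Agent.Helper5.LT.Qeq
import Pool.Agent.Helper6.LT.SGP
import Pool.Agent.Helper31.LT.BPR
import Pool.Agent.Helper89.LT.BCODE
import Pool.Agent.Helper39.LT.DIAG
import Pool.Agent.Helper8.LT.PPT
import Pool.Agent.Helper72.LT.BFORM
import Pool.Agent.Helper64.LT.ULT
import Pool.Agent.Helper19.LT.TRU
import Pool.Agent.Helper62.LT.ISEG
import Pool.Agent.Helper33.LT.STDEQ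
import Pool.Agent.Helper7.LT.PRM
import Pool.Agent.Helper73.LT.Prime

/-!
MP_c20641_lc, Q1: the finite lattices of the form `Lt(N)`, `N` a model of Peano arithmetic, are all
(nonempty) finite lattices.

`LA` is the usual language `{0, 1, +, ·, <}` of arithmetic, `PA` is first-order Peano arithmetic
(the axioms of discretely ordered semirings and the induction axiom for every formula, with
parameters), `LA.ElementarySubstructure N` is Mathlib's type of elementary substructures of `N`
(`N` included), ordered by inclusion.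
-/

namespace Pool.Agent.Results.MP_c20641_lc.EveryFiniteLattice

open FirstOrder Language
open Pool.Agent.Helper81.LT

universe u

/-- Every finite lattice is isomorphic to the substructure lattice `Lt(N)` of a model `N` of
Peano arithmetic. -/
theorem result (Λ : Type u) [Lattice Λ] [Finite Λ] [Nonempty Λ] :
    ∃ (N : Type) (_ : LA.Structure N), N ⊨ PA ∧
      Nonempty (Λ ≃o LA.ElementarySubstructure N) := by
  have hO := Pool.Agent.Helper31.LT.overThm
  have hC := Pool.Agent.Helper73.LT.conv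
  have hN := Pool.Agent.Helper89.LT.natPA
  have hU := Pool.Agent.Helper5.LT.btu
  have hβ := Pool.Agent.Helper85.LT.beta
  have hcnt := Pool.Agent.Helper6.LT.cnt
  have hR : ∀ (Λ : Type) [Lattice Λ] [BoundedOrder Λ] [Finite Λ], THMS Λ := fun Λ _ _ _ =>
    Pool.Agent.Helper96.LT.thms Λ (Pool.Agent.Helper70.LT.thmr Λ
      (Pool.Agent.Helper14.LT.good Λ (Pool.Agent.Helper27.LT.step Λ
        (Pool.Agent.Helper77.LT.neck Λ)))
      (Pool.Agent.Helper5.LT.int Pool.Agent.Helper13.LT.ind) Pool.Agent.Helper6.LT.count)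
  have hT : TSP := Pool.Agent.Helper81.LT.tsp (Pool.Agent.Helper33.LT.tspa hU)
    Pool.Agent.Helper96.LT.tspb (Pool.Agent.Helper81.LT.tspc hU hβ hN)
  have hS : SEQ := Pool.Agent.Helper27.LT.seq (Pool.Agent.Helper67.LT.step2 hO hU hβ) hcnt
  have hRS := Pool.Agent.Helper14.LT.rs hO
  have hL : LATT := Pool.Agent.Helper32.LT.latt Pool.Agent.Helper7.LT.tvt
    (Pool.Agent.Helper70.LT.choi hO) Pool.Agent.Helper48.LT.esb
    (Pool.Agent.Helper48.LT.ordk Pool.Agent.Helper48.LT.genu hRS)
    (Pool.Agent.Helper62.LT.surk hO hRS Pool.Agent.Helper1.LT.kcl)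
  have hSG := Pool.Agent.Helper85.LT.sgcl
  have hF := Pool.Agent.Helper72.LT.bform
  have hP : PPT := Pool.Agent.Helper8.LT.ppt Pool.Agent.Helper39.LT.diag
  have hSGP : SGP := Pool.Agent.Helper6.LT.sgp
    (Pool.Agent.Helper96.LT.prr hSG (Pool.Agent.Helper65.LT.prg hSG))
    Pool.Agent.Helper27.LT.qpr Pool.Agent.Helper5.LT.qeq
  have hNE : NONEQ := noneq hC hSGP
    (Pool.Agent.Helper64.LT.ult hP (Pool.Agent.Helper89.LT.bcode Pool.Agent.Helper31.LT.bpr) hF hN)
    (Pool.Agent.Helper62.LT.iseg hC hF (Pool.Agent.Helper19.LT.tru hC)) hP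
  have hPR : PRIME := Pool.Agent.Helper73.LT.prime hC (Pool.Agent.Helper7.LT.prm hO)
    Pool.Agent.Helper33.LT.stdeq hcnt hNE
  exact main_univ (fun Λ _ _ _ => main hR hN hPR hT hS hL Λ) Λ

end Pool.Agent.Results.MP_c20641_lc.EveryFiniteLattice
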